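import Pool.Agent.Helper60.BP.St

set_option autoImplicit false

/-! Statements of the modules of the assembly (MP_7debfd_pr). -/

namespace Pool.Agent.Helper60.BP

open MeasureTheory Finset Pool.Agent.Helper87.BP Pool.Agent.Helper42.BPX

noncomputable section

open Classical

/-- Average over the labels and the graph. -/
def avgE (n : ℕ) (a b : ℝ) (F : (Fin n → Bool) → Finset (Sym2 (Fin n)) → ℝ) : ℝ :=
  (∑ σ : Fin n → Bool, EE (pe n a b σ) (prs n) (F σ)) / 2 ^ n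

/-- After a saturated time the overlap is small (from `StS`, `persist`). -/
def StSat : Prop := ∀ (n : ℕ) (A : Finset (Sym2 (Fin n))) (σ : Fin n → Bool) (f : ℝ → ℝ)
  (d θ K Rc vt : ℝ) (h0 : Fin n → Fin n → ℝ) (co : Fin n → ℝ) (r q m' Δ s t : ℕ),
  Ctx f A σ d θ K Rc vt → Expd A (n / 500) ⌈d / 40⌉₊ → (∀ i, |co i| ≤ 1) → 1 ≤ Δ →
  n / 500 ≤ 10 ^ q * m' → s + 2 + q + r ≤ t →
  K * Real.artanh θ * n / Real.sqrt d < |∑ i, f (fd f A h0 s i)| →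
  |∑ i, est f (Adj A) h0 co t i * lab σ i|
    ≤ |∑ i ∈ univ.filter (fun i => AV A r i), lab σ i|
      + |∑ i ∈ univ.filter (fun i => ¬ AV A r i), co i * lab σ i|
      + 2 * ((zw A (ZZ A d) r).card
        + (r + 1) * (Δ ^ (r + 1) * (m' + (r + 1) * hd A Δ)) : ℕ)

/-- Large overlap after saturation is unlikely (from `StSat`, `StCoin`). -/
def StBv : Prop := ∀ (n : ℕ) (A : Finset (Sym2 (Fin n))) (σ : Fin n → Bool) (f : ℝ → ℝ)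
  (d θ K Rc vt ε : ℝ) (r q m' Δ T t : ℕ), 0 < n → 0 < ε →
  Ctx f A σ d θ K Rc vt → Expd A (n / 500) ⌈d / 40⌉₊ → 1 ≤ Δ →
  n / 500 ≤ 10 ^ q * m' → T + 1 + q + r ≤ t →
  |∑ i ∈ univ.filter (fun i => AV A r i), lab σ i| ≤ ε * n / 8 →
  2 * (((zw A (ZZ A d) r).card + (r + 1) * (Δ ^ (r + 1) * (m' + (r + 1) * hd A Δ)) : ℕ) : ℝ)
    ≤ ε * n / 4 →
  (volume : Measure (Rest n → unitInterval)).real {x | ε ≤ |ov f A σ t x| ∧
    ¬ Uns f A (initR x) d K (Real.artanh θ) T} ≤ 4 / (ε ^ 2 * n)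

/-- Splitting of the event of a large overlap (from `StOv`, `StSg`, `StCoin`, `StMeas`). -/
def StCv : Prop := ∀ (n : ℕ) (A : Finset (Sym2 (Fin n))) (σ : Fin n → Bool) (f : ℝ → ℝ)
  (θ L ε η : ℝ) (t : ℕ) (W : Set (Rest n → unitInterval)), 0 < n → 0 < ε → 0 < η →
  FP f θ L →
  (volume : Measure (Rest n → unitInterval)).real ({x | ε ≤ |ov f A σ t x|} ∩ W)
    ≤ 4 / (ε ^ 2 * n)
      + (volume : Measure (Rest n → unitInterval)).real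
        {x | ε ^ 2 * η / 128 ≤ AS f (Adj A) (initR x) σ t}
      + (volume : Measure (Rest n → unitInterval)).real
        ({x | ε / 8 * n ≤ Nη f A (initR x) t η} ∩ W)

/-- Anticoncentration (from `StACc`, `StTiltAvg`, `StTiltG`, `StMeas`, `StDisc`). -/
def StUv : Prop := ∀ ε : ℝ, 0 < ε → ∃ (r0 : ℕ) (ζ0 : ℝ), 0 < ζ0 ∧
  ∀ (f : ℝ → ℝ) (d θ K Rc : ℝ) (r j2 Δ : ℕ) (ζ : ℝ), r + 2 ≤ j2 → 1 ≤ Δ →
    0 < ζ → ζ ≤ 1 / 4000 → FP f θ (Real.artanh θ) → Par d θ K Rc → ∃ c : ℝ, 0 < c ∧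
    ∀ (n : ℕ) (A : Finset (Sym2 (Fin n))) (σ : Fin n → Bool) (vt : ℝ) (J t : ℕ),
      5 ≤ n → 1 ≤ J → Ctx f A σ d θ K Rc vt → Expd A (n / 500) ⌈d / 40⌉₊ → j2 ≤ t →
      ((zw A (ZZ A d) r).card : ℝ) + (r + 1) * (Δ : ℝ) ^ (r + 1) *
        ((3 * ζ + 1 / 10 ^ (j2 - 1 - r)) * n + (r + 2) * hd A Δ) ≤ ζ0 * n →
      (volume : Measure (Rest n → unitInterval)).real
        {x | Uns f A (initR x) d K (Real.artanh θ) (t - j2) ∧ ε * n ≤ Nη f A (initR x) t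
          (min (θ / Real.cosh 1 ^ 2) (c / (J * Real.sqrt n) * lam d θ Rc ^ (t - j2)))}
      ≤ Real.exp (2 * d) * Real.sqrt ((r0 : ℝ) / (J + 1)
        + (volume : Measure (Rest n → unitInterval)).real {x | ¬ HS A (initR x) d})

/-- Saturation before time `T` has a probability bounded below (from `StDich`, `StDichP`,
`StTiltG`, `StMeas`, `StDisc`). -/
def StTv : Prop := ∀ (n : ℕ) (A : Finset (Sym2 (Fin n))) (σ : Fin n → Bool) (f : ℝ → ℝ)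
  (d θ K Rc vt : ℝ) (T : ℕ), 5 ≤ n → Ctx f A σ d θ K Rc vt →
  (volume : Measure (Rest n → unitInterval)).real {x | ¬ HS A (initR x) d} ≤ 1 / 6 →
  2 * Real.artanh θ < cD0 d θ (Real.artanh θ) * (1 / Real.sqrt n) * lam d θ Rc ^ T →
  (volume : Measure (Rest n → unitInterval)).real
    {x | Uns f A (initR x) d K (Real.artanh θ) T} ≤ 1 - Real.exp (-(4 * d)) / 4

/-- Smallness of the asymmetry (from part A). -/
def StASv : Prop := ∀ a b : ℝ, 0 < b → b < a → (a - b) / (a + b) ≤ 1 / 100 →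
  2 * (a + b) < (a - b) ^ 2 → ∃ C : ℝ, 0 < C ∧ ∀ (n t : ℕ) (x : ℝ), a ≤ n → 0 < n → 0 < x →
  avgE n a b (fun σ A => (volume : Measure (Rest n → unitInterval)).real
    {y | x ≤ AS (fBP ((a - b) / (a + b))) (Adj A) (initR y) σ t})
    ≤ C * (t + 1) * AA ((a + b) / 2) ((a - b) / (a + b)) ^ t / (n * x)

/-- Bounded times (from `StLink, StF, StFlip, StPairs, StCoin, StOv, StMeas, StPP`, `EE_hd`). -/
def StEarly : Prop := ∀ a b ε δ : ℝ, 0 < b → b < a → (a - b) / (a + b) ≤ 1 / 100 → 0 < ε →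
  0 < δ → ∀ t : ℕ, ∃ N : ℕ, ∀ n : ℕ, N ≤ n → succProb n t a b ε ≤ δ

/-- Good graphs (from Helper42/BPX). -/
def StGP : Prop := ∃ D1 : ℝ, ∀ a b : ℝ, 0 < b → b < a → D1 ≤ a + b →
  (a - b) / (a + b) ≤ 1 / 100 →
  (∀ δ : ℝ, 0 < δ → ∃ N : ℕ, ∀ n : ℕ, N ≤ n → ∀ σ : Fin n → Bool,
    Pr (pe n a b σ) (prs n) (fun A => ¬ Expd A (n / 500) ⌈(a + b) / 2 / 40⌉₊) ≤ δ) ∧
  (∀ ε1 δ : ℝ, 0 < ε1 → 0 < δ → ∃ r N : ℕ, ∀ n : ℕ, N ≤ n → ∀ σ : Fin n → Bool,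
    Pr (pe n a b σ) (prs n)
      (fun A => ε1 * n < ((zw A (ZZ A ((a + b) / 2)) r).card : ℝ)) ≤ δ) ∧
  (∀ C δ : ℝ, ∀ r : ℕ, 0 < C → 0 < δ → ∃ Δ N : ℕ, 1 ≤ Δ ∧ ∀ n : ℕ, N ≤ n →
    ∀ σ : Fin n → Bool, Pr (pe n a b σ) (prs n)
      (fun A => n < C * (Δ : ℝ) ^ (r + 1) * (hd A Δ : ℝ)) ≤ δ)

/-- The alive vertices are balanced (from Helper42/BPX). -/
def StLLN : Prop := ∀ a b : ℝ, 0 < b → b < a → (a - b) / (a + b) ≤ 1 / 100 →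
  2 * (a + b) < (a - b) ^ 2 → ∀ (r : ℕ) (ε δ : ℝ), 0 < ε → 0 < δ →
  ∃ N : ℕ, ∀ n : ℕ, N ≤ n → avgE n a b (fun σ A =>
    ind (ε * n < |∑ i ∈ univ.filter (fun i => AV A r i), lab σ i|)) ≤ δ

/-- Numerical estimate in the unsaturated regime. -/
def StNum : Prop := ∀ (d θ K Rc C c J C1 δ : ℝ) (j2 : ℕ), Par d θ K Rc → 0 < C → 0 < c →
  0 < J → 0 < C1 → 0 < δ → ∃ N : ℕ, ∀ n : ℕ, N ≤ n → ∀ t : ℕ, j2 ≤ t →
  lam d θ Rc ^ t ≤ C1 * Real.sqrt n →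
  C * (t + 1) * AA d θ ^ t / (n * min (θ / Real.cosh 1 ^ 2)
    (c / (J * Real.sqrt n) * lam d θ Rc ^ (t - j2))) ≤ δ

/-- The saturation time. -/
def StTs : Prop := ∀ d θ K Rc : ℝ, Par d θ K Rc → ∃ C1 : ℝ, 0 < C1 ∧ ∀ n : ℕ, 1 ≤ n →
  ∃ T : ℕ, 2 * Real.artanh θ
      < cD0 d θ (Real.artanh θ) * (1 / Real.sqrt n) * lam d θ Rc ^ T ∧
    lam d θ Rc ^ T ≤ C1 * Real.sqrt n

end

end Pool.Agent.Helper60.BP
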