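import Pool.Agent.Helper42.BPX.Det2
import Pool.Agent.Helper42.BPX.EE2
import Pool.Agent.Helper42.BPX.PB
import Pool.Agent.Helper87.BP.Barrier

set_option autoImplicit false

/-! Definitions for the failure of randomly initialised belief propagation with `a, b > 0`
(problem MP_7debfd_pr).  Written proof: `/team-store/MP_7debfd-plan.md`.
The graph is a set `A` of unordered pairs, adjacency `Adj A` (Helper42/BPX). -/

namespace Pool.Agent.Helper60.BP

open MeasureTheory Finset Pool.Agent.Helper87.BP Pool.Agent.Helper42.BPX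

noncomputable section

open Classical

/-- Properties of `f = fBP θ`, `L = artanh θ` used in the proof. -/
structure FP (f : ℝ → ℝ) (θ L : ℝ) : Prop where
  θpos : 0 < θ
  θle : θ ≤ 1 / 100
  Lge : θ ≤ L
  Lle : L ≤ (101 / 100) * θ
  odd : ∀ x, f (-x) = -f x
  mono : StrictMono f
  lip : ∀ x y, x ≤ y → f y - f x ≤ θ * (y - x)
  bdd : ∀ x, |f x| < L
  low : ∀ B x y, |x| ≤ B → |y| ≤ B → x ≤ y → θ / Real.cosh B ^ 2 * (y - x) ≤ f y - f x
  big : ∀ x, 2 ≤ x → (9 / 10) * L ≤ f x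
  meas : Measurable f
  cv : ∀ G : ℝ → ENNReal, Measurable G →
    ∫⁻ v in Set.Ioo (-L) L, G v ≤ ENNReal.ofReal θ * ∫⁻ x, G (f x)

/-- Growth factor of differences of two ordered unsaturated trajectories. -/
def lam (d θ Rc : ℝ) : ℝ := θ * d / (4 * Real.cosh (Rc + 1) ^ 2)

/-- Growth factor of the (squared) asymmetry. -/
def AA (d θ : ℝ) : ℝ := 4 * θ ^ 3 * d ^ 2

/-- Numerical conditions on the parameters: `d` average degree, `θ`, threshold `K` of saturation,
`Rc` bound on typical fields of an unsaturated trajectory. -/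
structure Par (d θ K Rc : ℝ) : Prop where
  θpos : 0 < θ
  θle : θ ≤ 1 / 100
  κ1 : 1 ≤ θ ^ 2 * d
  dbig : 10 ^ 10 ≤ d
  Kpos : 0 < K
  Rpos : 1 ≤ Rc
  hK : 9 * Real.sqrt d * Real.artanh θ + 2 * θ * d * Real.artanh θ
      ≤ (1 / 500) * (K * Real.sqrt d * Real.artanh θ - θ * d * Real.artanh θ - 3)
  hR : 16 * (K * Real.sqrt d * Real.artanh θ + 3 * θ * d * Real.artanh θ
      + 9 * Real.sqrt d * Real.artanh θ) ≤ Rc
  hlam : (AA d θ / lam d θ Rc) ^ 4 ≤ lam d θ Rc
  hlam4 : 4 ≤ lam d θ Rc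
  hA1 : 1 ≤ AA d θ / lam d θ Rc

/-- Edge probabilities of the block model, on unordered pairs. -/
def pe (n : ℕ) (a b : ℝ) (σ : Fin n → Bool) : Sym2 (Fin n) → ℝ :=
  Sym2.lift ⟨fun i j => if σ i = σ j then a / n else b / n, fun i j => by
    by_cases h : σ i = σ j
    · simp [h]
    · have h' : ¬ σ j = σ i := fun e => h e.symm
      simp [h, h']⟩

/-- Difference of indicators: the integral over `v` of `zf y v * zf y' v` is `min |y| |y'|` (equal
signs) or `0`. -/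
def zf (y v : ℝ) : ℝ := (if y ≤ v then 1 else 0) - (if 0 ≤ v then 1 else 0)

variable {n : ℕ}

/-- Asymmetry profile of the transformed fields after `t` rounds. -/
def Zt (f : ℝ → ℝ) (R : Fin n → Fin n → Prop) (h0 : Fin n → Fin n → ℝ) (σ : Fin n → Bool)
    (t : ℕ) (v : ℝ) : ℝ := (∑ i, lab σ i * zf (f (field f R h0 t i)) v) / n

/-- Squared `L²` norm of the asymmetry profile. -/
def AS (f : ℝ → ℝ) (R : Fin n → Fin n → Prop) (h0 : Fin n → Fin n → ℝ) (σ : Fin n → Bool)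
    (t : ℕ) : ℝ := ∫ v, Zt f R h0 σ t v ^ 2

/-- Transformed message `x^t_{k → i} = f (h^t_{k → i})`. -/
def xm (f : ℝ → ℝ) (A : Finset (Sym2 (Fin n))) (h0 : Fin n → Fin n → ℝ) (t : ℕ) (k i : Fin n) : ℝ :=
  f (msg f (Adj A) h0 t k i)

/-- Field. -/
def fd (f : ℝ → ℝ) (A : Finset (Sym2 (Fin n))) (h0 : Fin n → Fin n → ℝ) (t : ℕ) (i : Fin n) : ℝ :=
  field f (Adj A) h0 t i

/-- Cut norm discrepancy of the adjacency matrix. -/
def Disc (A : Finset (Sym2 (Fin n))) (σ : Fin n → Bool) (d vt : ℝ) : Prop :=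
  ∀ x y : Fin n → ℝ, (∀ i, |x i| ≤ 1) → (∀ i, |y i| ≤ 1) →
    |∑ i, ∑ k, (if Adj A i k then x i * y k else 0) - d / n * ((∑ i, x i) * ∑ k, y k)
      - d * vt / n * ((∑ i, lab σ i * x i) * ∑ k, lab σ k * y k)| ≤ 9 * Real.sqrt d * n

/-- Everything about the graph except the random inputs of the late phase. -/
structure Ctx (f : ℝ → ℝ) (A : Finset (Sym2 (Fin n))) (σ : Fin n → Bool) (d θ K Rc vt : ℝ) :
    Prop where
  fp : FP f θ (Real.artanh θ)
  par : Par d θ K Rc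
  hvt : |vt| ≤ θ
  disc : Disc A σ d vt

/-- Good graph: `D = ⌈d/2⌉`, `k = ⌈d/40⌉`, `m = n/500`, `Z = cl A D k`. -/
structure Good (A : Finset (Sym2 (Fin n))) (σ : Fin n → Bool) (d vt : ℝ) (r Δ : ℕ) (ε1 ε2 : ℝ) :
    Prop where
  disc : Disc A σ d vt
  exp : Expd A (n / 500) ⌈d / 40⌉₊
  zwc : ((zw A (cl A ⌈d / 2⌉₊ ⌈d / 40⌉₊) r).card : ℝ) ≤ ε1 * n
  hdc : (hd A Δ : ℝ) ≤ ε2 * n

/-- Unsaturated at all times before `S`. -/
def Uns (f : ℝ → ℝ) (A : Finset (Sym2 (Fin n))) (h0 : Fin n → Fin n → ℝ) (d K L : ℝ) (S : ℕ) :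
    Prop := ∀ s, s < S → |∑ i, f (fd f A h0 s i)| ≤ K * L * n / Real.sqrt d

/-- Differences of the messages at time `s` are at least `g` outside `E`. -/
def DL (f : ℝ → ℝ) (A : Finset (Sym2 (Fin n))) (h0 h0' : Fin n → Fin n → ℝ) (g : ℝ)
    (E : Finset (Fin n)) (s : ℕ) : Prop :=
  ∀ k, k ∉ E → ∀ i, Adj A k i → g ≤ xm f A h0' s k i - xm f A h0 s k i

/-- Most vertices have many incoming initial messages in `[-1/2, 1/2]`. -/
def HS (A : Finset (Sym2 (Fin n))) (h0 : Fin n → Fin n → ℝ) (d : ℝ) : Prop :=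
  ((univ.filter (fun i =>
    ((univ.filter (fun k => Adj A k i ∧ |h0 k i| ≤ 1 / 2)).card : ℝ) < d / 8 + 1)).card : ℝ)
      ≤ (n : ℝ) / 8

/-- The tilt of an initial message in `[-1, 1]`. -/
def phi (τ h : ℝ) : ℝ := (h + τ) / (1 + τ * h)

/-- Tilted initial messages. -/
def htl (A : Finset (Sym2 (Fin n))) (τ : ℝ) (h0 : Fin n → Fin n → ℝ) (k i : Fin n) : ℝ :=
  if Adj A k i then phi τ (h0 k i) else h0 k i

/-- Vertices joined to `i` by a walk of at most `t` steps. -/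
def ballt (A : Finset (Sym2 (Fin n))) (t : ℕ) (i : Fin n) : Finset (Fin n) :=
  (range (t + 1)).biUnion (fun q => nbq A q {i})

/-- The closure of the low degree vertices used in the proof. -/
def ZZ (A : Finset (Sym2 (Fin n))) (d : ℝ) : Finset (Fin n) := cl A ⌈d / 2⌉₊ ⌈d / 40⌉₊

/-- Constant of the first growth step. -/
def cD0 (d θ L : ℝ) : ℝ :=
  θ / Real.cosh (32 * d * L + L) ^ 2 * (d / 8 * (θ / Real.cosh 1 ^ 2 / 8))

/-- The tilt map on the message and coin variables: tilts the initial messages of the directed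
edges of `A`. -/
def tlt (A : Finset (Sym2 (Fin n))) (τ : ℝ) (r : Rest n → unitInterval) : Rest n → unitInterval :=
  fun c => match c with
  | Sum.inl (k, i) =>
      if Adj A k i then
        Set.projIcc (0 : ℝ) 1 zero_le_one ((phi τ (2 * (r (Sum.inl (k, i)) : ℝ) - 1) + 1) / 2)
      else r (Sum.inl (k, i))
  | Sum.inr i => r (Sum.inr i)

/-- Number of directed edges. -/
def de (A : Finset (Sym2 (Fin n))) : ℕ := ∑ i, (nb A i).card

/-- Overlap of the signs of the fields (0 for a vanishing field). -/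
def sg (f : ℝ → ℝ) (A : Finset (Sym2 (Fin n))) (h0 : Fin n → Fin n → ℝ) (σ : Fin n → Bool)
    (t : ℕ) : ℝ := (∑ i, lab σ i * Real.sign (fd f A h0 t i)) / n

/-- Overlap of the estimate. -/
def ov (f : ℝ → ℝ) (A : Finset (Sym2 (Fin n))) (σ : Fin n → Bool) (t : ℕ)
    (r : Rest n → unitInterval) : ℝ :=
  (∑ i, est f (Adj A) (initR r) (coinR r) t i * lab σ i) / n

/-- Number of vertices with a nonvanishing transformed field of absolute value less than `η`. -/
def Nη (f : ℝ → ℝ) (A : Finset (Sym2 (Fin n))) (h0 : Fin n → Fin n → ℝ) (t : ℕ) (η : ℝ) : ℕ :=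
  (univ.filter (fun i => fd f A h0 t i ≠ 0 ∧ |f (fd f A h0 t i)| < η)).card

end

end Pool.Agent.Helper60.BP
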