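import Pool.Agent.Helper60.BP.Fin0

set_option autoImplicit false

/-! Final assembly (MP_7debfd_pr). -/

namespace Pool.Agent.Helper60.BP

open MeasureTheory Finset Pool.Agent.Helper87.BP Pool.Agent.Helper42.BPX

noncomputable section

open Classical

/-- The good graphs. -/
structure GG (n : ℕ) (d θ ε ε1 Cc : ℝ) (r Δ : ℕ) (σ : Fin n → Bool) (A : Finset (Sym2 (Fin n))) :
    Prop where
  disc : Disc A σ d θ
  exp : Expd A (n / 500) ⌈d / 40⌉₊
  zwc : ((zw A (ZZ A d) r).card : ℝ) ≤ ε1 * n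
  hdc : Cc * (Δ : ℝ) ^ (r + 1) * (hd A Δ : ℝ) ≤ n
  lln : |∑ i ∈ univ.filter (fun i => AV A r i), lab σ i| ≤ ε / 8 * n

lemma bad_graphs {n : ℕ} {a b d θ ε ε1 Cc δ : ℝ} {r Δ : ℕ} (ok : OK n a b)
    (h1 : ∀ σ, Pr (pe n a b σ) (prs n) (fun A => ¬ Disc A σ d θ) ≤ δ)
    (h2 : ∀ σ, Pr (pe n a b σ) (prs n) (fun A => ¬ Expd A (n / 500) ⌈d / 40⌉₊) ≤ δ)
    (h3 : ∀ σ, Pr (pe n a b σ) (prs n) (fun A => ε1 * n < ((zw A (ZZ A d) r).card : ℝ)) ≤ δ)
    (h4 : ∀ σ, Pr (pe n a b σ) (prs n) (fun A => n < Cc * (Δ : ℝ) ^ (r + 1) * (hd A Δ : ℝ)) ≤ δ)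
    (h5 : avgE n a b (fun σ A =>
      ind (ε / 8 * n < |∑ i ∈ univ.filter (fun i => AV A r i), lab σ i|)) ≤ δ) :
    avgE n a b (fun σ A => ind (¬ GG n d θ ε ε1 Cc r Δ σ A)) ≤ 5 * δ := by
  have key : avgE n a b (fun σ A => ind (¬ GG n d θ ε ε1 Cc r Δ σ A))
      ≤ avgE n a b (fun σ A => ind (¬ Disc A σ d θ ∨ (¬ Expd A (n / 500) ⌈d / 40⌉₊ ∨
        (ε1 * n < ((zw A (ZZ A d) r).card : ℝ) ∨
        (n < Cc * (Δ : ℝ) ^ (r + 1) * (hd A Δ : ℝ) ∨
          ε / 8 * n < |∑ i ∈ univ.filter (fun i => AV A r i), lab σ i|))))) := by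
    refine avgE_mono ok fun σ A _ => ind_mono fun h => ?_
    by_contra hcon
    push Not at hcon
    obtain ⟨c1, c2, c3, c4, c5⟩ := hcon
    exact h ⟨c1, c2, c3, c4, c5⟩
  have g1 := avgE_le_of_forall (n := n) (a := a) (b := b)
    (F := fun σ A => ind (¬ Disc A σ d θ)) h1
  have g2 := avgE_le_of_forall (n := n) (a := a) (b := b)
    (F := fun σ A => ind (¬ Expd A (n / 500) ⌈d / 40⌉₊)) h2
  have g3 := avgE_le_of_forall (n := n) (a := a) (b := b)
    (F := fun σ A => ind (ε1 * n < ((zw A (ZZ A d) r).card : ℝ))) h3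
  have g4 := avgE_le_of_forall (n := n) (a := a) (b := b)
    (F := fun σ A => ind (n < Cc * (Δ : ℝ) ^ (r + 1) * (hd A Δ : ℝ))) h4
  refine key.trans ?_
  refine (avgE_ind_or ok _ _).trans ?_
  have k1 := avgE_ind_or ok (fun _ A => ¬ Expd A (n / 500) ⌈d / 40⌉₊) (fun σ A =>
        (ε1 * n < ((zw A (ZZ A d) r).card : ℝ) ∨
        (n < Cc * (Δ : ℝ) ^ (r + 1) * (hd A Δ : ℝ) ∨
          ε / 8 * n < |∑ i ∈ univ.filter (fun i => AV A r i), lab σ i|)))
  have k2 := avgE_ind_or ok (fun _ A => ε1 * n < ((zw A (ZZ A d) r).card : ℝ)) (fun σ A =>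
        (n < Cc * (Δ : ℝ) ^ (r + 1) * (hd A Δ : ℝ) ∨
          ε / 8 * n < |∑ i ∈ univ.filter (fun i => AV A r i), lab σ i|))
  have k3 := avgE_ind_or ok (fun _ A => n < Cc * (Δ : ℝ) ^ (r + 1) * (hd A Δ : ℝ)) (fun σ A =>
          ε / 8 * n < |∑ i ∈ univ.filter (fun i => AV A r i), lab σ i|)
  linarith

lemma vol_le_one {n : ℕ} (S : Set (Rest n → unitInterval)) :
    (volume : Measure (Rest n → unitInterval)).real S ≤ 1 := measureReal_le_one

lemma vol_split {n : ℕ} (S W : Set (Rest n → unitInterval)) :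
    (volume : Measure (Rest n → unitInterval)).real S
      ≤ (volume : Measure (Rest n → unitInterval)).real (S ∩ Wᶜ)
        + (volume : Measure (Rest n → unitInterval)).real (S ∩ W) := by
  have h : S ⊆ (S ∩ Wᶜ) ∪ (S ∩ W) := by
    intro x hx
    by_cases hW : x ∈ W
    · exact Or.inr ⟨hx, hW⟩
    · exact Or.inl ⟨hx, hW⟩
  exact (measureReal_mono h).trans (measureReal_union_le _ _)

/-- numerical bounds on a good graph -/
lemma good_num {n : ℕ} {d θ ε ε1 ζ0 ζ' Cc : ℝ} {r Δ q : ℕ} {σ : Fin n → Bool}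
    {A : Finset (Sym2 (Fin n))} (h : GG n d θ ε ε1 Cc r Δ σ A) (hε : 0 < ε) (hζ0 : 0 < ζ0)
    (hΔ : 1 ≤ Δ)
    (e1 : ε1 ≤ ζ0 / 4) (e2 : ε1 ≤ ε / 64)
    (hC1 : 4 * ((r : ℝ) + 1) * (r + 2) / ζ0 ≤ Cc) (hC2 : 32 * ((r : ℝ) + 1) ^ 2 / ε ≤ Cc)
    (hζ' : ((r : ℝ) + 1) * (Δ : ℝ) ^ (r + 1) * (3 * ζ') ≤ ζ0 / 8)
    (hq1 : ((r : ℝ) + 1) * (Δ : ℝ) ^ (r + 1) * (1 / 10 ^ q) ≤ ζ0 / 8)
    (hq2 : ((r : ℝ) + 1) * (Δ : ℝ) ^ (r + 1) * (1 / 10 ^ q) ≤ ε)
    (hn : 64 * ((r : ℝ) + 1) * (Δ : ℝ) ^ (r + 1) ≤ ε * n) :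
    ((zw A (ZZ A d) r).card : ℝ) + (r + 1) * (Δ : ℝ) ^ (r + 1) *
        ((3 * ζ' + 1 / 10 ^ (q + r + 2 - 1 - r)) * n + (r + 2) * hd A Δ) ≤ ζ0 * n ∧
    2 * (((zw A (ZZ A d) r).card + (r + 1) * (Δ ^ (r + 1) *
      ((n / 500 / 10 ^ q + 1) + (r + 1) * hd A Δ)) : ℕ) : ℝ) ≤ ε * n / 4 := by
  have hn0 : (0 : ℝ) ≤ n := Nat.cast_nonneg n
  have hΔ1 : (1 : ℝ) ≤ (Δ : ℝ) ^ (r + 1) := one_le_pow₀ (by exact_mod_cast hΔ)
  have hr : (0 : ℝ) ≤ r := Nat.cast_nonneg r
  set P : ℝ := (Δ : ℝ) ^ (r + 1) with hP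
  have hh : (0 : ℝ) ≤ hd A Δ := Nat.cast_nonneg _
  have hhP : (0 : ℝ) ≤ P * hd A Δ := by positivity
  have hzw := h.zwc
  have hhd := h.hdc
  rw [← hP] at hhd
  have a1 : ((r : ℝ) + 1) * P * ((r + 2) * hd A Δ) ≤ ζ0 / 4 * n := by
    have : 4 * ((r : ℝ) + 1) * (r + 2) / ζ0 * (P * hd A Δ) ≤ n := by
      refine le_trans (mul_le_mul_of_nonneg_right hC1 hhP) ?_
      linarith
    rw [div_mul_eq_mul_div, div_le_iff₀ hζ0] at this
    linarith
  have a2 : 2 * (((r : ℝ) + 1) * (P * ((r + 1) * hd A Δ))) ≤ ε / 16 * n := by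
    have : 32 * ((r : ℝ) + 1) ^ 2 / ε * (P * hd A Δ) ≤ n := by
      refine le_trans (mul_le_mul_of_nonneg_right hC2 hhP) ?_
      linarith
    rw [div_mul_eq_mul_div, div_le_iff₀ hε] at this
    nlinarith
  have hq10 : (1 : ℝ) / 10 ^ (q + 1) ≤ 1 / 10 ^ q := by
    refine one_div_le_one_div_of_le (by positivity) ?_
    exact pow_le_pow_right₀ (by norm_num) (Nat.le_succ q)
  constructor
  · have e : q + r + 2 - 1 - r = q + 1 := by omega
    rw [e]
    have b1 : ((r : ℝ) + 1) * P * (3 * ζ' * n) ≤ ζ0 / 8 * n := by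
      have := mul_le_mul_of_nonneg_right hζ' hn0
      linarith
    have b2 : ((r : ℝ) + 1) * P * (1 / 10 ^ (q + 1) * n) ≤ ζ0 / 8 * n := by
      have h1 : ((r : ℝ) + 1) * P * (1 / 10 ^ (q + 1)) ≤ ζ0 / 8 :=
        (mul_le_mul_of_nonneg_left hq10 (by positivity)).trans hq1
      have := mul_le_mul_of_nonneg_right h1 hn0
      linarith
    have b3 : ((zw A (ZZ A d) r).card : ℝ) ≤ ζ0 / 4 * n :=
      hzw.trans (mul_le_mul_of_nonneg_right e1 hn0)
    calc ((zw A (ZZ A d) r).card : ℝ) + (r + 1) * P *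
        ((3 * ζ' + 1 / 10 ^ (q + 1)) * n + (r + 2) * hd A Δ)
        = ((zw A (ZZ A d) r).card : ℝ) + ((r : ℝ) + 1) * P * (3 * ζ' * n)
          + ((r : ℝ) + 1) * P * (1 / 10 ^ (q + 1) * n)
          + ((r : ℝ) + 1) * P * ((r + 2) * hd A Δ) := by ring
      _ ≤ ζ0 / 4 * n + ζ0 / 8 * n + ζ0 / 8 * n + ζ0 / 4 * n := by linarith
      _ ≤ ζ0 * n := by nlinarith
  · push_cast
    rw [← hP]
    have c1 : (((n / 500 / 10 ^ q : ℕ)) : ℝ) ≤ n * (1 / 10 ^ q) / 500 := by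
      have h1 : (((n / 500 / 10 ^ q : ℕ)) : ℝ) ≤ ((n / 500 : ℕ) : ℝ) / ((10 ^ q : ℕ) : ℝ) :=
        Nat.cast_div_le
      have h2 : ((n / 500 : ℕ) : ℝ) ≤ (n : ℝ) / ((500 : ℕ) : ℝ) := Nat.cast_div_le
      refine h1.trans ?_
      push_cast at h2 ⊢
      rw [div_le_iff₀ (by positivity)]
      have h3 : (n : ℝ) * (1 / 10 ^ q) / 500 * 10 ^ q = n / 500 := by
        field_simp
      rw [h3]
      exact h2
    have c2 : ((r : ℝ) + 1) * (P * (n / 500 / 10 ^ q : ℕ)) ≤ ε * n / 500 := by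
      have h1 : ((r : ℝ) + 1) * (P * (n / 500 / 10 ^ q : ℕ))
          ≤ ((r : ℝ) + 1) * (P * (n * (1 / 10 ^ q) / 500)) := by
        refine mul_le_mul_of_nonneg_left (mul_le_mul_of_nonneg_left c1 (by positivity))
          (by positivity)
      have h2 := mul_le_mul_of_nonneg_right hq2 hn0
      have h3 : ((r : ℝ) + 1) * (P * (n * (1 / 10 ^ q) / 500))
          = (((r : ℝ) + 1) * P * (1 / 10 ^ q) * n) / 500 := by ring
      rw [h3] at h1
      refine h1.trans ?_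
      exact div_le_div_of_nonneg_right h2 (by norm_num)
    have c3 : ((zw A (ZZ A d) r).card : ℝ) ≤ ε / 64 * n :=
      hzw.trans (mul_le_mul_of_nonneg_right e2 hn0)
    have hεn : 0 ≤ ε * n := by positivity
    have expand : 2 * (((zw A (ZZ A d) r).card : ℝ) + ((r : ℝ) + 1) * (P *
        ((((n / 500 / 10 ^ q : ℕ) : ℝ) + 1) + ((r : ℝ) + 1) * hd A Δ)))
        = 2 * ((zw A (ZZ A d) r).card : ℝ) + 2 * (((r : ℝ) + 1) * (P * (n / 500 / 10 ^ q : ℕ)))
          + 2 * (((r : ℝ) + 1) * P) + 2 * (((r : ℝ) + 1) * (P * ((r + 1) * hd A Δ))) := by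
      ring
    rw [expand]
    nlinarith

theorem main (hF : StF) (hPar : StPar) (hDiscP : StDiscP) (hGP : StGP)
    (hLLN : StLLN) (hHS : StHS) (hDisc : StDisc) (hUv : StUv) (hTv : StTv) (hBv : StBv)
    (hCv : StCv) (hASv : StASv) (hEarly : StEarly) (hNum : StNum) (hTs : StTs) (hLink : StLink) :
    ∀ K0 : ℝ, ∃ D : ℝ, ∀ a b : ℝ, 0 < b → b < a → D ≤ a + b → 2 * (a + b) < (a - b) ^ 2 →
      (a - b) ^ 2 ≤ K0 * (a + b) → ∀ ε : ℝ, 0 < ε → ∃ c : ℝ, 0 < c ∧ ∃ N : ℕ, ∀ n : ℕ, N ≤ n →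
      ∀ t : ℕ, succProb n t a b ε ≤ 1 - c := by
  intro K0
  obtain ⟨K, Rc, D0, hP⟩ := hPar (max 1 K0) (le_max_left _ _)
  obtain ⟨D1, hG⟩ := hGP
  refine ⟨max (2 * D0) (max D1 8), fun a b hb hab hD hks hK0 ε hε => ?_⟩
  have hs : 0 < a + b := by linarith
  have hDa : 2 * D0 ≤ a + b := (le_max_left _ _).trans hD
  have hDb : D1 ≤ a + b := ((le_max_left _ _).trans (le_max_right _ _)).trans hD
  have hDc : 8 ≤ a + b := ((le_max_right _ _).trans (le_max_right _ _)).trans hD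
  set d : ℝ := (a + b) / 2 with hd_def
  set θ : ℝ := (a - b) / (a + b) with hθ_def
  have hθ0 : 0 < θ := div_pos (by linarith) hs
  have hκ : θ ^ 2 * d = (a - b) ^ 2 / (2 * (a + b)) := by
    rw [hθ_def, hd_def]; field_simp
  have hκ1 : 1 ≤ θ ^ 2 * d := by
    rw [hκ, le_div_iff₀ (by linarith)]; linarith
  have hκ2 : θ ^ 2 * d ≤ max 1 K0 := by
    have hK0' : 0 ≤ K0 := by
      by_contra hcon
      push Not at hcon
      have : K0 * (a + b) < 0 := mul_neg_of_neg_of_pos hcon hs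
      have := sq_nonneg (a - b)
      linarith
    refine le_trans ?_ (le_max_right _ _)
    rw [hκ, div_le_iff₀ (by linarith)]
    have : 0 ≤ K0 * (a + b) := by positivity
    linarith
  have par : Par d θ K Rc := hP d θ (by rw [hd_def]; linarith) hθ0 hκ1 hκ2
  have fp : FP (fBP θ) θ (Real.artanh θ) := hF θ hθ0 par.θle
  have hd0 : 0 < d := by rw [hd_def]; linarith
  have ctx : ∀ {n : ℕ} {A : Finset (Sym2 (Fin n))} {σ : Fin n → Bool}, Disc A σ d θ →
      Ctx (fBP θ) A σ d θ K Rc θ := fun h => ⟨fp, par, by rw [abs_of_pos hθ0], h⟩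
  -- constants
  set c0 : ℝ := Real.exp (-(4 * d)) / 4 with hc0_def
  have hc0 : 0 < c0 := by positivity
  have hc0' : c0 ≤ 1 / 4 := by
    rw [hc0_def]
    have : Real.exp (-(4 * d)) ≤ 1 := Real.exp_le_one_iff.2 (by linarith)
    linarith
  set δ : ℝ := c0 / 16 with hδ_def
  have hδ : 0 < δ := by positivity
  obtain ⟨r0, ζ0, hζ0, hU⟩ := hUv (ε / 8) (by positivity)
  obtain ⟨hG1, hG2, hG3⟩ := hG a b hb hab hDb par.θle
  set ε1 : ℝ := min (ζ0 / 4) (ε / 64) with hε1_def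
  have hε1 : 0 < ε1 := lt_min (by positivity) (by positivity)
  obtain ⟨r, N2, hN2⟩ := hG2 ε1 δ hε1 hδ
  set Cc : ℝ := max (4 * ((r : ℝ) + 1) * (r + 2) / ζ0) (32 * ((r : ℝ) + 1) ^ 2 / ε) with hCc
  have hCc0 : 0 < Cc := lt_max_of_lt_left (by positivity)
  obtain ⟨Δ, N3, hΔ, hN3⟩ := hG3 Cc δ r hCc0 hδ
  have hΔ1 : (1 : ℝ) ≤ (Δ : ℝ) ^ (r + 1) := one_le_pow₀ (by exact_mod_cast hΔ)
  set W : ℝ := ((r : ℝ) + 1) * (Δ : ℝ) ^ (r + 1) with hW
  have hW0 : 0 < W := by positivity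
  set ζ' : ℝ := min (1 / 4000) (ζ0 / (24 * W)) with hζ'_def
  have hζ'0 : 0 < ζ' := lt_min (by norm_num) (by positivity)
  have hζ'1 : ζ' ≤ 1 / 4000 := min_le_left _ _
  have hζ'2 : W * (3 * ζ') ≤ ζ0 / 8 := by
    have : ζ' ≤ ζ0 / (24 * W) := min_le_right _ _
    rw [le_div_iff₀ (by positivity)] at this
    nlinarith
  obtain ⟨q, hq⟩ : ∃ q : ℕ, (1 / 10 : ℝ) ^ q < min (ζ0 / 8 / W) (ε / W) :=
    exists_pow_lt_of_lt_one (lt_min (by positivity) (by positivity)) (by norm_num)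
  have hqe : (1 / 10 : ℝ) ^ q = 1 / 10 ^ q := by rw [one_div_pow]
  rw [hqe] at hq
  have hq1 : W * (1 / 10 ^ q) ≤ ζ0 / 8 := by
    have := (lt_of_lt_of_le hq (min_le_left _ _)).le
    rw [le_div_iff₀ hW0] at this
    linarith
  have hq2 : W * (1 / 10 ^ q) ≤ ε := by
    have := (lt_of_lt_of_le hq (min_le_right _ _)).le
    rw [le_div_iff₀ hW0] at this
    linarith
  set j2 : ℕ := q + r + 2 with hj2
  obtain ⟨c, hc, hU'⟩ := hU (fBP θ) d θ K Rc r j2 Δ ζ' (by omega) hΔ hζ'0 hζ'1 fp par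
  -- number of tilts
  set x : ℝ := (Real.exp (-(2 * d)) / 4) ^ 2 with hx_def
  have hx : 0 < x := by positivity
  obtain ⟨J, hJ⟩ := exists_nat_gt (2 * r0 / x)
  have hJ1 : (r0 : ℝ) / ((J + 1 : ℕ) + 1) ≤ x / 2 := by
    rw [div_lt_iff₀ hx] at hJ
    rw [div_le_iff₀ (by positivity)]
    push_cast
    nlinarith
  set J' : ℕ := J + 1 with hJ'
  obtain ⟨N4, hN4⟩ := hHS (min (x / 2) (1 / 6)) (lt_min (by positivity) (by norm_num))
  obtain ⟨C, hC, hAS⟩ := hASv a b hb hab par.θle hks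
  obtain ⟨C1, hC1, hT⟩ := hTs d θ K Rc par
  have hlam1 : 4 ≤ lam d θ Rc := par.hlam4
  have hlam0 : 0 < lam d θ Rc := by linarith
  have hJ'0 : (0 : ℝ) < J' := by rw [hJ']; positivity
  obtain ⟨N5, hN5⟩ := hNum d θ K Rc (128 * C / ε ^ 2) c J' (C1 * lam d θ Rc ^ j2) (1 / 16) j2
    par (by positivity) hc hJ'0 (by positivity) (by norm_num)
  obtain ⟨N6, hN6⟩ := hLLN a b hb hab par.θle hks r (ε / 8) δ (by positivity) hδ
  obtain ⟨N7, hN7⟩ := hG1 δ hδ
  obtain ⟨N8, hN8⟩ := hDiscP a b δ hb.le hab.le hDc hδ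
  choose Ne hNe using hEarly a b ε (1 / 2) hb hab par.θle hε (by norm_num)
  obtain ⟨N9, hN9⟩ := exists_nat_gt (4 / (ε ^ 2 * δ))
  obtain ⟨N10, hN10⟩ := exists_nat_gt (64 * W / ε)
  obtain ⟨N11, hN11⟩ := exists_nat_gt a
  refine ⟨c0 / 2, by positivity, N2 + N3 + N4 + N5 + N6 + N7 + N8 + (∑ s ∈ range j2, Ne s)
    + N9 + N10 + N11 + 5, fun n hn t => ?_⟩
  have hn5 : 5 ≤ n := by omega
  have hn0 : 0 < n := by omega
  have hnR : (0 : ℝ) < n := by exact_mod_cast hn0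
  have han : a ≤ n := by
    have : (N11 : ℝ) ≤ n := by
      have : N11 ≤ n := by omega
      exact_mod_cast this
    linarith
  have ok : OK n a b := ⟨by linarith, hb.le, han, by linarith⟩
  have hcoin : 4 / (ε ^ 2 * n) ≤ δ := by
    have h1 : (N9 : ℝ) ≤ n := by
      have : N9 ≤ n := by omega
      exact_mod_cast this
    have h2 : 4 / (ε ^ 2 * δ) < n := lt_of_lt_of_le hN9 h1
    rw [div_lt_iff₀ (by positivity)] at h2
    rw [div_le_iff₀ (by positivity)]
    linarith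
  have hnW : 64 * ((r : ℝ) + 1) * (Δ : ℝ) ^ (r + 1) ≤ ε * n := by
    have h1 : (N10 : ℝ) ≤ n := by
      have : N10 ≤ n := by omega
      exact_mod_cast this
    have h2 : 64 * W / ε < n := lt_of_lt_of_le hN10 h1
    rw [div_lt_iff₀ hε] at h2
    rw [hW] at h2
    linarith
  -- early times
  by_cases ht : t < j2
  · have h1 : Ne t ≤ ∑ s ∈ range j2, Ne s :=
      Finset.single_le_sum (f := Ne) (fun _ _ => Nat.zero_le _) (mem_range.2 ht)
    have := hNe t n (by omega)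
    linarith
  push Not at ht
  -- bad graphs
  have hbad : avgE n a b (fun σ A => ind (¬ GG n d θ ε ε1 Cc r Δ σ A)) ≤ 5 * δ :=
    bad_graphs ok (hN8 n (by omega)) (hN7 n (by omega)) (hN2 n (by omega)) (hN3 n (by omega))
      (hN6 n (by omega))
  -- numbers
  have hnum : ∀ σ A, GG n d θ ε ε1 Cc r Δ σ A → _ := fun σ A h =>
    good_num (ζ' := ζ') (ζ0 := ζ0) (q := q) h hε hζ0 hΔ (min_le_left _ _) (min_le_right _ _)
      (le_max_left _ _) (le_max_right _ _) hζ'2 hq1 hq2 hnW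
  have hHSn : ∀ σ A, GG n d θ ε ε1 Cc r Δ σ A →
      (volume : Measure (Rest n → unitInterval)).real {y | ¬ HS A (initR y) d}
        ≤ min (x / 2) (1 / 6) := by
    intro σ A h
    refine hN4 n (by omega) A d par.dbig ?_
    exact (hDisc n A σ d θ par.dbig (by rw [abs_of_pos hθ0]; exact par.θle) h.disc).2.1
  have hm' : n / 500 ≤ 10 ^ q * (n / 500 / 10 ^ q + 1) :=
    (Nat.lt_mul_div_succ (n / 500) (by positivity)).le
  rw [hLink n t a b ε hb.le hab.le han hn0]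
  change avgE n a b (fun σ A => (volume : Measure (Rest n → unitInterval)).real
      {y | ε ≤ |ov (fBP θ) A σ t y|}) ≤ _
  by_cases hcase : lam d θ Rc ^ t ≤ C1 * lam d θ Rc ^ j2 * Real.sqrt n
  · -- unsaturated regime
    set η : ℝ := min (θ / Real.cosh 1 ^ 2)
      (c / (J' * Real.sqrt n) * lam d θ Rc ^ (t - j2)) with hη_def
    have hη : 0 < η := lt_min (by positivity) (by positivity)
    have h1 := avgE_split (n := n) (a := a) (b := b) (c := 1 / 4 + 2 * δ) ok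
      (F := fun σ A => (volume : Measure (Rest n → unitInterval)).real
        {y | ε ≤ |ov (fBP θ) A σ t y|})
      (X := fun σ A => (volume : Measure (Rest n → unitInterval)).real
        {y | ε ^ 2 * η / 128 ≤ AS (fBP θ) (Adj A) (initR y) σ t})
      (G := GG n d θ ε ε1 Cc r Δ) (fun σ A => vol_le_one _) (fun σ A => measureReal_nonneg)
      (by positivity) (fun σ A _ h => ?_)
    · have h2 := hAS n t (ε ^ 2 * η / 128) han hn0 (by positivity)
      have h3 := hN5 n (by omega) t ht hcase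
      have h4 : C * (t + 1) * AA d θ ^ t / (n * (ε ^ 2 * η / 128))
          = 128 * C / ε ^ 2 * (t + 1) * AA d θ ^ t / (n * η) := by
        field_simp
      rw [h4] at h2
      have h5 : avgE n a b (fun σ A => (volume : Measure (Rest n → unitInterval)).real
        {y | ε ^ 2 * η / 128 ≤ AS (fBP θ) (Adj A) (initR y) σ t}) ≤ 1 / 16 := h2.trans h3
      refine h1.trans ?_
      linarith
    · -- good graph
      obtain ⟨m1, m2⟩ := hnum σ A h
      have hc' := ctx h.disc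
      have v1 := vol_split {y | ε ≤ |ov (fBP θ) A σ t y|}
        {y : Rest n → unitInterval | Uns (fBP θ) A (initR y) d K (Real.artanh θ) (t - j2)}
      have v2 : (volume : Measure (Rest n → unitInterval)).real
          ({y | ε ≤ |ov (fBP θ) A σ t y|} ∩
            {y : Rest n → unitInterval |
              Uns (fBP θ) A (initR y) d K (Real.artanh θ) (t - j2)}ᶜ) ≤ δ := by
        refine le_trans ?_ hcoin
        exact hBv n A σ (fBP θ) d θ K Rc θ ε r q (n / 500 / 10 ^ q + 1) Δ (t - j2) t hn0 hε hc'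
          h.exp hΔ hm' (by omega) (by have := h.lln; linarith) m2
      have v3 := hCv n A σ (fBP θ) θ (Real.artanh θ) ε η t
        {y : Rest n → unitInterval | Uns (fBP θ) A (initR y) d K (Real.artanh θ) (t - j2)}
        hn0 hε hη fp
      have v4 := hU' n A σ θ J' t hn5 (by omega) hc' h.exp ht m1
      have v5 : (volume : Measure (Rest n → unitInterval)).real
          ({y | ε / 8 * n ≤ Nη (fBP θ) A (initR y) t η} ∩
            {y : Rest n → unitInterval |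
              Uns (fBP θ) A (initR y) d K (Real.artanh θ) (t - j2)}) ≤ 1 / 4 := by
        have e1 : ({y | ε / 8 * n ≤ Nη (fBP θ) A (initR y) t η} ∩
            {y : Rest n → unitInterval |
              Uns (fBP θ) A (initR y) d K (Real.artanh θ) (t - j2)})
            = {y | Uns (fBP θ) A (initR y) d K (Real.artanh θ) (t - j2) ∧
              ε / 8 * n ≤ Nη (fBP θ) A (initR y) t η} := by
          ext y
          exact and_comm
        rw [e1]
        refine v4.trans ?_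
        have e2 := (hHSn σ A h).trans (min_le_left _ _)
        have e3 : Real.sqrt ((r0 : ℝ) / ((J' : ℕ) + 1)
            + (volume : Measure (Rest n → unitInterval)).real {y | ¬ HS A (initR y) d})
            ≤ Real.exp (-(2 * d)) / 4 := by
          rw [← Real.sqrt_sq (show (0 : ℝ) ≤ Real.exp (-(2 * d)) / 4 by positivity)]
          refine Real.sqrt_le_sqrt ?_
          rw [← hx_def]
          linarith
        calc Real.exp (2 * d) * Real.sqrt ((r0 : ℝ) / ((J' : ℕ) + 1)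
            + (volume : Measure (Rest n → unitInterval)).real {y | ¬ HS A (initR y) d})
            ≤ Real.exp (2 * d) * (Real.exp (-(2 * d)) / 4) :=
              mul_le_mul_of_nonneg_left e3 (Real.exp_pos _).le
          _ = 1 / 4 := by
            rw [Real.exp_neg]
            field_simp
      linarith
  · -- late times
    push Not at hcase
    obtain ⟨T, hT1, hT2⟩ := hT n (by omega)
    have hTt : T + j2 < t := by
      by_contra hcon
      push Not at hcon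
      have h1 : lam d θ Rc ^ t ≤ lam d θ Rc ^ (T + j2) :=
        pow_le_pow_right₀ (by linarith) hcon
      rw [pow_add] at h1
      have h2 : lam d θ Rc ^ T * lam d θ Rc ^ j2 ≤ C1 * Real.sqrt n * lam d θ Rc ^ j2 :=
        mul_le_mul_of_nonneg_right hT2 (by positivity)
      linarith
    have h1 := avgE_split (n := n) (a := a) (b := b) (c := 1 - c0 + δ) ok
      (F := fun σ A => (volume : Measure (Rest n → unitInterval)).real
        {y | ε ≤ |ov (fBP θ) A σ t y|})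
      (X := fun _ _ => 0)
      (G := GG n d θ ε ε1 Cc r Δ) (fun σ A => vol_le_one _) (fun σ A => le_rfl)
      (by linarith) (fun σ A _ h => ?_)
    · rw [avgE_const] at h1
      refine h1.trans ?_
      linarith
    · obtain ⟨m1, m2⟩ := hnum σ A h
      have hc' := ctx h.disc
      have v1 := vol_split {y | ε ≤ |ov (fBP θ) A σ t y|}
        {y : Rest n → unitInterval | Uns (fBP θ) A (initR y) d K (Real.artanh θ) T}
      have v2 : (volume : Measure (Rest n → unitInterval)).real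
          ({y | ε ≤ |ov (fBP θ) A σ t y|} ∩
            {y : Rest n → unitInterval |
              Uns (fBP θ) A (initR y) d K (Real.artanh θ) T}ᶜ) ≤ δ := by
        refine le_trans ?_ hcoin
        exact hBv n A σ (fBP θ) d θ K Rc θ ε r q (n / 500 / 10 ^ q + 1) Δ T t hn0 hε hc'
          h.exp hΔ hm' (by omega) (by have := h.lln; linarith) m2
      have v3 := hTv n A σ (fBP θ) d θ K Rc θ T hn5 hc'
        ((hHSn σ A h).trans (min_le_right _ _)) hT1
      have v4 : (volume : Measure (Rest n → unitInterval)).real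
          ({y | ε ≤ |ov (fBP θ) A σ t y|} ∩
            {y : Rest n → unitInterval |
              Uns (fBP θ) A (initR y) d K (Real.artanh θ) T})
          ≤ 1 - c0 := (measureReal_mono Set.inter_subset_right).trans v3
      linarith

end

end Pool.Agent.Helper60.BP
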