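import Pool.Agent.Helper60.BP.StAsm

set_option autoImplicit false

/-! Assembly, part 0: averages over labels and graphs (MP_7debfd_pr). -/

namespace Pool.Agent.Helper60.BP

open MeasureTheory Finset Pool.Agent.Helper87.BP Pool.Agent.Helper42.BPX

noncomputable section

open Classical

variable {n : ℕ}

lemma pe_nonneg {a b : ℝ} (ha : 0 ≤ a) (hb : 0 ≤ b) (σ : Fin n → Bool) (e : Sym2 (Fin n)) :
    0 ≤ pe n a b σ e := by
  induction e using Sym2.ind with
  | _ i j =>
    simp only [pe, Sym2.lift_mk]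
    split_ifs <;> positivity

lemma pe_le_one {a b : ℝ} (ha : a ≤ n) (hb : b ≤ n) (σ : Fin n → Bool) (e : Sym2 (Fin n)) :
    pe n a b σ e ≤ 1 := by
  induction e using Sym2.ind with
  | _ i j =>
    simp only [pe, Sym2.lift_mk]
    have hn : (0 : ℝ) ≤ n := Nat.cast_nonneg n
    split_ifs
    · exact div_le_one_of_le₀ ha hn
    · exact div_le_one_of_le₀ hb hn

/-- Parameters for which the averages are expectations. -/
structure OK (n : ℕ) (a b : ℝ) : Prop where
  a0 : 0 ≤ a
  b0 : 0 ≤ b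
  an : a ≤ n
  bn : b ≤ n

lemma avgE_mono {a b : ℝ} (h : OK n a b) {F G : (Fin n → Bool) → Finset (Sym2 (Fin n)) → ℝ}
    (hFG : ∀ σ A, A ⊆ prs n → F σ A ≤ G σ A) : avgE n a b F ≤ avgE n a b G := by
  unfold avgE
  refine div_le_div_of_nonneg_right (Finset.sum_le_sum fun σ _ => ?_) (by positivity)
  exact EE_mono (fun e _ => pe_nonneg h.a0 h.b0 σ e) (fun e _ => pe_le_one h.an h.bn σ e)
    (fun A hA => hFG σ A hA)

lemma avgE_add {a b : ℝ} (F G : (Fin n → Bool) → Finset (Sym2 (Fin n)) → ℝ) :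
    avgE n a b (fun σ A => F σ A + G σ A) = avgE n a b F + avgE n a b G := by
  unfold avgE
  rw [← add_div, ← Finset.sum_add_distrib]
  congr 1
  exact Finset.sum_congr rfl fun σ _ => EE_add _ _ _ _

lemma avgE_const {a b : ℝ} (c : ℝ) : avgE n a b (fun _ _ => c) = c := by
  unfold avgE
  simp only [EE_const]
  rw [Finset.sum_const, card_univ, nsmul_eq_mul]
  simp

lemma avgE_le_of_forall {a b δ : ℝ} {F : (Fin n → Bool) → Finset (Sym2 (Fin n)) → ℝ}
    (h : ∀ σ, EE (pe n a b σ) (prs n) (F σ) ≤ δ) : avgE n a b F ≤ δ := by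
  unfold avgE
  rw [div_le_iff₀ (by positivity)]
  refine (Finset.sum_le_card_nsmul _ _ _ (fun σ _ => h σ)).trans ?_
  rw [card_univ, nsmul_eq_mul]
  simp [mul_comm]

/-- Main averaging step: if on good graphs the quantity is at most `c + X`, and is at most `1`
always, its average is at most `c + avg X + (probability of a bad graph)`. -/
lemma avgE_split {a b c : ℝ} (h : OK n a b) {F X : (Fin n → Bool) → Finset (Sym2 (Fin n)) → ℝ}
    {G : (Fin n → Bool) → Finset (Sym2 (Fin n)) → Prop}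
    (h1 : ∀ σ A, F σ A ≤ 1) (hX : ∀ σ A, 0 ≤ X σ A) (hc : 0 ≤ c)
    (hG : ∀ σ A, A ⊆ prs n → G σ A → F σ A ≤ c + X σ A) :
    avgE n a b F ≤ c + avgE n a b X + avgE n a b (fun σ A => ind (¬ G σ A)) := by
  have e : avgE n a b (fun σ A => c + X σ A + ind (¬ G σ A))
      = c + avgE n a b X + avgE n a b (fun σ A => ind (¬ G σ A)) := by
    have h2 := avgE_add (n := n) (a := a) (b := b) (fun σ A => c + X σ A)
      (fun σ A => ind (¬ G σ A))
    have h3 := avgE_add (n := n) (a := a) (b := b) (fun _ _ => c) X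
    rw [avgE_const] at h3
    rw [h2, h3]
  rw [← e]
  refine avgE_mono h fun σ A hA => ?_
  by_cases hg : G σ A
  · have := hG σ A hA hg
    have h0 := ind_nonneg (¬ G σ A)
    linarith
  · rw [ind_of hg]
    have := h1 σ A
    have := hX σ A
    linarith

lemma avgE_ind_or {a b : ℝ} (h : OK n a b)
    (P Q : (Fin n → Bool) → Finset (Sym2 (Fin n)) → Prop) :
    avgE n a b (fun σ A => ind (P σ A ∨ Q σ A))
      ≤ avgE n a b (fun σ A => ind (P σ A)) + avgE n a b (fun σ A => ind (Q σ A)) := by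
  rw [← avgE_add]
  exact avgE_mono h fun σ A _ => ind_or_le _ _

end

end Pool.Agent.Helper60.BP
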