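import Pool.Agent.Helper60.BP.Defs

set_option autoImplicit false

/-! Statements of the modules of Part B (growth, tilts, anticoncentration, saturation) of the proof
that randomly initialised belief propagation fails (MP_7debfd_pr). Each `St...` is proved in a
separate file. Written proof: `/team-store/MP_7debfd-plan.md`. -/

namespace Pool.Agent.Helper60.BP

open MeasureTheory Finset Pool.Agent.Helper87.BP Pool.Agent.Helper42.BPX

noncomputable section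

open Classical

/-! ## Analytic facts -/

/-- `f = fBP θ` has the listed properties. -/
def StF : Prop := ∀ θ : ℝ, 0 < θ → θ ≤ 1 / 100 → FP (fBP θ) θ (Real.artanh θ)

/-- Parameters exist. -/
def StPar : Prop := ∀ K0 : ℝ, 1 ≤ K0 → ∃ K Rc D0 : ℝ, ∀ d θ : ℝ, D0 ≤ d → 0 < θ →
  1 ≤ θ ^ 2 * d → θ ^ 2 * d ≤ K0 → Par d θ K Rc

/-! ## Deterministic consequences of small discrepancy -/

def StDisc : Prop := ∀ (n : ℕ) (A : Finset (Sym2 (Fin n))) (σ : Fin n → Bool) (d vt : ℝ),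
  10 ^ 10 ≤ d → |vt| ≤ 1 / 100 → Disc A σ d vt →
  (de A : ℝ) ≤ 2 * d * n ∧
  ((univ.filter (fun i => ((nb A i).card : ℝ) < d / 2)).card : ℝ) ≤ n / 2000 ∧
  ∀ E : Finset (Fin n), (E.card : ℝ) ≤ n / 2 →
    ((univ.filter (fun i => ((nb A i \ E).card : ℝ) < d / 4 + 1)).card : ℝ) ≤ n / 2000

/-- The fields are bounded on average, at all times. -/
def StFd : Prop := ∀ (n : ℕ) (A : Finset (Sym2 (Fin n))) (σ : Fin n → Bool) (f : ℝ → ℝ)
  (d θ K Rc vt : ℝ) (h0 : Fin n → Fin n → ℝ) (s : ℕ), Ctx f A σ d θ K Rc vt →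
  ∑ i, |fd f A h0 s i| ≤ 2 * d * Real.artanh θ * n

/-- Unsaturated at time `s`: the fields at time `s + 1` are mostly bounded by `Rc`. -/
def StU : Prop := ∀ (n : ℕ) (A : Finset (Sym2 (Fin n))) (σ : Fin n → Bool) (f : ℝ → ℝ)
  (d θ K Rc vt : ℝ) (h0 : Fin n → Fin n → ℝ) (s : ℕ), Ctx f A σ d θ K Rc vt →
  |∑ i, f (fd f A h0 s i)| ≤ K * Real.artanh θ * n / Real.sqrt d →
  ((univ.filter (fun i => Rc < |fd f A h0 (s + 1) i|)).card : ℝ) ≤ n / 16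

/-- Saturated at time `s`: the fields at time `s + 1` are mostly at least `3`. -/
def StS : Prop := ∀ (n : ℕ) (A : Finset (Sym2 (Fin n))) (σ : Fin n → Bool) (f : ℝ → ℝ)
  (d θ K Rc vt : ℝ) (h0 : Fin n → Fin n → ℝ) (s : ℕ), Ctx f A σ d θ K Rc vt →
  (K * Real.artanh θ * n / Real.sqrt d < ∑ i, f (fd f A h0 s i) →
    (univ.filter (fun i => fd f A h0 (s + 1) i < 3)).card ≤ n / 500) ∧
  (∑ i, f (fd f A h0 s i) < -(K * Real.artanh θ * n / Real.sqrt d) →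
    (univ.filter (fun i => -fd f A h0 (s + 1) i < 3)).card ≤ n / 500)

/-! ## Growth of differences -/

/-- First step. -/
def StD0 : Prop := ∀ (n : ℕ) (A : Finset (Sym2 (Fin n))) (σ : Fin n → Bool) (f : ℝ → ℝ)
  (d θ K Rc vt : ℝ) (h0 : Fin n → Fin n → ℝ) (τ τ' : ℝ), Ctx f A σ d θ K Rc vt →
  (∀ k i, |h0 k i| ≤ 1) → HS A h0 d → 0 ≤ τ → τ ≤ τ' → τ' < 1 →
  ∃ E : Finset (Fin n), (E.card : ℝ) ≤ n / 4 ∧
    DL f A (htl A τ h0) (htl A τ' h0) (cD0 d θ (Real.artanh θ) * (τ' - τ)) E 1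

/-- Growth step, for ordered initial conditions. -/
def StD1 : Prop := ∀ (n : ℕ) (A : Finset (Sym2 (Fin n))) (σ : Fin n → Bool) (f : ℝ → ℝ)
  (d θ K Rc vt : ℝ) (h0 h0' : Fin n → Fin n → ℝ) (g : ℝ) (E : Finset (Fin n)) (s : ℕ),
  Ctx f A σ d θ K Rc vt → (∀ k i, Adj A k i → h0 k i ≤ h0' k i) → 0 ≤ g →
  (E.card : ℝ) ≤ n / 4 → DL f A h0 h0' g E s →
  ((univ.filter (fun i => Rc < |fd f A h0 s i|)).card : ℝ) ≤ n / 16 →
  ((univ.filter (fun i => Rc < |fd f A h0' s i|)).card : ℝ) ≤ n / 16 →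
  ∃ E' : Finset (Fin n), (E'.card : ℝ) ≤ n / 4 ∧ DL f A h0 h0' (lam d θ Rc * g) E' (s + 1)

/-- Growth as long as both trajectories are unsaturated (from `StD0, StD1, StU`). -/
def StGrow : Prop := ∀ (n : ℕ) (A : Finset (Sym2 (Fin n))) (σ : Fin n → Bool) (f : ℝ → ℝ)
  (d θ K Rc vt : ℝ) (h0 : Fin n → Fin n → ℝ) (τ τ' : ℝ) (S : ℕ), Ctx f A σ d θ K Rc vt →
  (∀ k i, |h0 k i| ≤ 1) → HS A h0 d → 0 ≤ τ → τ ≤ τ' → τ' < 1 →
  Uns f A (htl A τ h0) d K (Real.artanh θ) S → Uns f A (htl A τ' h0) d K (Real.artanh θ) S →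
  ∀ S', S' ≤ S → ∃ E : Finset (Fin n), (E.card : ℝ) ≤ n / 4 ∧
    DL f A (htl A τ h0) (htl A τ' h0)
      (cD0 d θ (Real.artanh θ) * (τ' - τ) * lam d θ Rc ^ S') E (S' + 1)

/-- Two tilts cannot both be unsaturated for long (from `StGrow, StDisc`). -/
def StDich : Prop := ∀ (n : ℕ) (A : Finset (Sym2 (Fin n))) (σ : Fin n → Bool) (f : ℝ → ℝ)
  (d θ K Rc vt : ℝ) (h0 : Fin n → Fin n → ℝ) (τ τ' : ℝ) (S : ℕ), 0 < n →
  Ctx f A σ d θ K Rc vt →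
  (∀ k i, |h0 k i| ≤ 1) → HS A h0 d → 0 ≤ τ → τ ≤ τ' → τ' < 1 →
  Uns f A (htl A τ h0) d K (Real.artanh θ) S → Uns f A (htl A τ' h0) d K (Real.artanh θ) S →
  cD0 d θ (Real.artanh θ) * (τ' - τ) * lam d θ Rc ^ S ≤ 2 * Real.artanh θ

/-- Levels: at any later time the differences are large outside `ZZ A d` and a small set. -/
def StLev : Prop := ∀ (n : ℕ) (A : Finset (Sym2 (Fin n))) (σ : Fin n → Bool) (f : ℝ → ℝ)
  (d θ K Rc vt : ℝ) (h0 h0' : Fin n → Fin n → ℝ) (g ζ : ℝ) (E : Finset (Fin n)) (s : ℕ),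
  Ctx f A σ d θ K Rc vt → Expd A (n / 500) ⌈d / 40⌉₊ →
  (∀ k i, Adj A k i → h0 k i ≤ h0' k i) → 0 ≤ g → 0 < ζ → ζ ≤ 1 / 4000 →
  (E.card : ℝ) ≤ n / 4 → DL f A h0 h0' g E s →
  ∀ j : ℕ, 1 ≤ j → ∃ E' : Finset (Fin n), (E'.card : ℝ) ≤ (3 * ζ + 1 / 10 ^ j) * n ∧
    DL f A h0 h0' ((θ / Real.cosh (2 * d * Real.artanh θ / ζ + 1) ^ 2) ^ j * g)
      (ZZ A d ∪ E') (s + j)

/-- Chaining back from an alive vertex to a vertex where the difference is large. -/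
def StCh : Prop := ∀ (n : ℕ) (A : Finset (Sym2 (Fin n))) (f : ℝ → ℝ) (θ L : ℝ)
  (h0 h0' : Fin n → Fin n → ℝ) (g : ℝ) (r t Δ m : ℕ) (Z : Finset (Fin n))
  (X : ℕ → Finset (Fin n)), FP f θ L →
  (∀ k i, Adj A k i → h0 k i ≤ h0' k i) → 0 ≤ g → r ≤ t → 1 ≤ Δ →
  (∀ q, q ≤ r → (X q).card ≤ m) → (∀ q, q ≤ r → DL f A h0 h0' g (Z ∪ X q) (t - q)) →
  (univ.filter (fun i => AV A r i ∧
    fd f A h0' t i - fd f A h0 t i < (θ / Real.cosh (L * Δ) ^ 2) ^ r * g)).card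
    ≤ (zw A Z r).card + (r + 1) * (Δ ^ (r + 1) * (m + (r + 2) * hd A Δ))

/-- Differences at time `t` of two tilts which are unsaturated until `t - j2`
(from `StGrow, StLev, StCh`). -/
def StAC : Prop := ∀ (f : ℝ → ℝ) (d θ K Rc : ℝ) (r j2 Δ : ℕ) (ζ : ℝ), r + 2 ≤ j2 → 1 ≤ Δ →
  0 < ζ → ζ ≤ 1 / 4000 → FP f θ (Real.artanh θ) → Par d θ K Rc → ∃ c : ℝ, 0 < c ∧
  ∀ (n : ℕ) (A : Finset (Sym2 (Fin n))) (σ : Fin n → Bool) (vt : ℝ)
    (h0 : Fin n → Fin n → ℝ) (τ τ' : ℝ) (t : ℕ), Ctx f A σ d θ K Rc vt →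
    Expd A (n / 500) ⌈d / 40⌉₊ → (∀ k i, |h0 k i| ≤ 1) → HS A h0 d →
    0 ≤ τ → τ ≤ τ' → τ' < 1 → j2 ≤ t →
    Uns f A (htl A τ h0) d K (Real.artanh θ) (t - j2) →
    Uns f A (htl A τ' h0) d K (Real.artanh θ) (t - j2) →
    ((univ.filter (fun i => AV A r i ∧ fd f A (htl A τ' h0) t i - fd f A (htl A τ h0) t i
      < c * (τ' - τ) * lam d θ Rc ^ (t - j2))).card : ℝ)
      ≤ (zw A (ZZ A d) r).card + (r + 1) * (Δ : ℝ) ^ (r + 1) *
        ((3 * ζ + 1 / 10 ^ (j2 - 1 - r)) * n + (r + 2) * hd A Δ)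

/-- Few large sets with small pairwise intersections. -/
def StCount : Prop := ∀ ε : ℝ, 0 < ε → ∃ (r0 : ℕ) (ζ : ℝ), 0 < ζ ∧
  ∀ (n : ℕ) (S : ℕ → Finset (Fin n)) (Q : Finset ℕ), 0 < n →
    (∀ j ∈ Q, ε * n ≤ (S j).card) →
    (∀ j ∈ Q, ∀ j' ∈ Q, j < j' → ((S j ∩ S j').card : ℝ) ≤ ζ * n) → Q.card ≤ r0

/-- Number of tilts with many small fields (from `StAC, StCount`). -/
def StACc : Prop := ∀ ε : ℝ, 0 < ε → ∃ (r0 : ℕ) (ζ0 : ℝ), 0 < ζ0 ∧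
  ∀ (f : ℝ → ℝ) (d θ K Rc : ℝ) (r j2 Δ : ℕ) (ζ : ℝ), r + 2 ≤ j2 → 1 ≤ Δ →
    0 < ζ → ζ ≤ 1 / 4000 → FP f θ (Real.artanh θ) → Par d θ K Rc → ∃ c : ℝ, 0 < c ∧
    ∀ (n : ℕ) (A : Finset (Sym2 (Fin n))) (σ : Fin n → Bool) (vt : ℝ)
      (h0 : Fin n → Fin n → ℝ) (J t : ℕ), 2 ≤ n → 1 ≤ J → Ctx f A σ d θ K Rc vt →
      Expd A (n / 500) ⌈d / 40⌉₊ → (∀ k i, |h0 k i| ≤ 1) → HS A h0 d → j2 ≤ t →
      ((zw A (ZZ A d) r).card : ℝ) + (r + 1) * (Δ : ℝ) ^ (r + 1) *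
        ((3 * ζ + 1 / 10 ^ (j2 - 1 - r)) * n + (r + 2) * hd A Δ) ≤ ζ0 * n →
      ((range (J + 1)).filter (fun j =>
        Uns f A (htl A (j / (J * Real.sqrt n)) h0) d K (Real.artanh θ) (t - j2) ∧
        ε * n ≤ Nη f A (htl A (j / (J * Real.sqrt n)) h0) t
          (min (θ / Real.cosh 1 ^ 2) (c / (J * Real.sqrt n) * lam d θ Rc ^ (t - j2))))).card ≤ r0

/-! ## Tilts -/

/-- Algebra and measurability of the tilt maps. -/
def StTiltG : Prop := ∀ (n : ℕ) (A : Finset (Sym2 (Fin n))) (τ : ℝ), |τ| < 1 →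
  Measurable (tlt A τ) ∧ (∀ r, tlt A τ (tlt A (-τ) r) = r) ∧
  (∀ r k i, initR (tlt A τ r) k i = htl A τ (initR r) k i) ∧
  (∀ r i, coinR (tlt A τ r) i = coinR r i)

/-- Contiguity. -/
def StTilt : Prop := ∀ (n : ℕ) (A : Finset (Sym2 (Fin n))) (d τ : ℝ)
  (B : Set (Rest n → unitInterval)), 4 ≤ n → 0 < d → |τ| ≤ 1 / Real.sqrt n →
  (de A : ℝ) ≤ 2 * d * n → MeasurableSet B →
  (volume : Measure (Rest n → unitInterval)).real (tlt A τ ⁻¹' B)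
    ≤ Real.exp (2 * d) * Real.sqrt ((volume : Measure (Rest n → unitInterval)).real B)

/-- Averaging over tilts (from `StTiltG, StTilt`). -/
def StTiltAvg : Prop := ∀ (n : ℕ) (A : Finset (Sym2 (Fin n))) (d : ℝ) (J r0 : ℕ)
  (B G : Set (Rest n → unitInterval)), 5 ≤ n → 0 < d → 1 ≤ J → (de A : ℝ) ≤ 2 * d * n →
  MeasurableSet B → MeasurableSet G →
  (∀ r ∈ G, ((range (J + 1)).filter (fun j =>
    tlt A ((j : ℝ) / (J * Real.sqrt n)) r ∈ B)).card ≤ r0) →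
  (volume : Measure (Rest n → unitInterval)).real B
    ≤ Real.exp (2 * d) * Real.sqrt ((r0 : ℝ) / (J + 1)
      + (volume : Measure (Rest n → unitInterval)).real Gᶜ)

/-- Dichotomy, probability version (from `StTiltG, StTilt`). -/
def StDichP : Prop := ∀ (n : ℕ) (A : Finset (Sym2 (Fin n))) (d : ℝ)
  (U G : Set (Rest n → unitInterval)), 5 ≤ n → 0 < d → (de A : ℝ) ≤ 2 * d * n →
  MeasurableSet U → MeasurableSet G →
  (∀ r ∈ G, ¬ (r ∈ U ∧ tlt A (1 / Real.sqrt n) r ∈ U)) →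
  (volume : Measure (Rest n → unitInterval)).real Gᶜ ≤ 1 / 6 →
  (volume : Measure (Rest n → unitInterval)).real U ≤ 1 - Real.exp (-(4 * d)) / 4

/-! ## Randomness of the initial messages and coins -/

/-- Measurability. -/
def StMeas : Prop := ∀ (n : ℕ) (A : Finset (Sym2 (Fin n))) (σ : Fin n → Bool) (f : ℝ → ℝ)
  (t : ℕ), Measurable f →
  (∀ i, Measurable (fun r : Rest n → unitInterval => fd f A (initR r) t i)) ∧
  (∀ d K L : ℝ, MeasurableSet {r : Rest n → unitInterval | Uns f A (initR r) d K L t}) ∧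
  (∀ x η : ℝ, MeasurableSet {r : Rest n → unitInterval | x ≤ Nη f A (initR r) t η}) ∧
  (∀ d : ℝ, MeasurableSet {r : Rest n → unitInterval | HS A (initR r) d}) ∧
  Measurable (fun r : Rest n → unitInterval => sg f A (initR r) σ t) ∧
  Measurable (fun r : Rest n → unitInterval => ov f A σ t r)

/-- Most vertices have many small incoming initial messages. -/
def StHS : Prop := ∀ δ : ℝ, 0 < δ → ∃ N : ℕ, ∀ n : ℕ, N ≤ n →
  ∀ (A : Finset (Sym2 (Fin n))) (d : ℝ), 10 ^ 10 ≤ d →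
  ((univ.filter (fun i => ((nb A i).card : ℝ) < d / 2)).card : ℝ) ≤ n / 2000 →
  (volume : Measure (Rest n → unitInterval)).real {r | ¬ HS A (initR r) d} ≤ δ

/-- Coins: the set `Q` may depend on the initial messages. -/
def StCoin : Prop := ∀ (n : ℕ) (σ : Fin n → Bool) (δ : ℝ)
  (Q : (Rest n → unitInterval) → Finset (Fin n)), 0 < n → 0 < δ →
  (∀ i, MeasurableSet {r | i ∈ Q r}) →
  (∀ r r' : Rest n → unitInterval, (∀ x, r (Sum.inl x) = r' (Sum.inl x)) → Q r = Q r') →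
  (volume : Measure (Rest n → unitInterval)).real
    {r | δ * n ≤ |∑ i ∈ Q r, coinR r i * lab σ i|} ≤ 1 / (δ ^ 2 * n)

/-- Overlap of the estimate and of the signs. -/
def StOv : Prop := ∀ (n : ℕ) (A : Finset (Sym2 (Fin n))) (σ : Fin n → Bool) (f : ℝ → ℝ)
  (t : ℕ) (r : Rest n → unitInterval),
  |ov f A σ t r| ≤ |sg f A (initR r) σ t|
    + |∑ i ∈ univ.filter (fun i => fd f A (initR r) t i = 0), coinR r i * lab σ i| / n

/-- Overlap of the signs and asymmetry profile. -/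
def StSg : Prop := ∀ (n : ℕ) (A : Finset (Sym2 (Fin n))) (σ : Fin n → Bool) (f : ℝ → ℝ)
  (θ L : ℝ) (h0 : Fin n → Fin n → ℝ) (t : ℕ) (η : ℝ), FP f θ L → 0 < η →
  |sg f A h0 σ t| ≤ Real.sqrt (2 / η) * Real.sqrt (AS f (Adj A) h0 σ t) + Nη f A h0 t η / n

/-- Bounded times: the signs at distant vertices are independent and symmetric. -/
def StFlip : Prop := ∀ (n : ℕ) (A : Finset (Sym2 (Fin n))) (σ : Fin n → Bool) (f : ℝ → ℝ)
  (t : ℕ), Measurable f → (∀ x, f (-x) = -f x) →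
  ∫ r : Rest n → unitInterval, sg f A (initR r) σ t ^ 2
    ≤ ((univ.filter (fun x : Fin n × Fin n =>
        ¬ Disjoint (ballt A t x.1) (ballt A t x.2))).card : ℝ) / n ^ 2

def StPairs : Prop := ∀ (n : ℕ) (A : Finset (Sym2 (Fin n))) (t Δ : ℕ), 1 ≤ Δ →
  (univ.filter (fun x : Fin n × Fin n => ¬ Disjoint (ballt A t x.1) (ballt A t x.2))).card
    ≤ n * ((2 * t + 1) * Δ ^ (2 * t)) + n * ((2 * t + 1) ^ 2 * Δ ^ (2 * t) * hd A Δ)

/-! ## Random graph -/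

/-- The discrepancy is small with high probability. -/
def StDiscP : Prop := ∀ a b δ : ℝ, 0 ≤ b → b ≤ a → 8 ≤ a + b → 0 < δ → ∃ N : ℕ, ∀ n : ℕ, N ≤ n →
  ∀ σ : Fin n → Bool, Pr (pe n a b σ) (prs n)
    (fun A => ¬ Disc A σ ((a + b) / 2) ((a - b) / (a + b))) ≤ δ

/-- `succProb` in terms of the finite expectation over the graph. -/
def StLink : Prop := ∀ (n t : ℕ) (a b ε : ℝ), 0 ≤ b → b ≤ a → a ≤ n → 0 < n →
  succProb n t a b ε = (∑ σ : Fin n → Bool, EE (pe n a b σ) (prs n) (fun A =>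
    (volume : Measure (Rest n → unitInterval)).real
      {r | ε ≤ |ov (fBP ((a - b) / (a + b))) A σ t r|})) / 2 ^ n

/-- The edge probabilities are of the form used in the late phase. -/
def StPP : Prop := ∀ (n : ℕ) (a b : ℝ) (σ : Fin n → Bool), 0 ≤ b → b ≤ a → a ≤ n → 0 < n →
  PP n a b (pe n a b σ)

end

end Pool.Agent.Helper60.BP
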