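import Pool.Agent.Helper60.BP.Fin
import Pool.Agent.Helper60.BPM.F
import Pool.Agent.Helper60.BPM.Par
import Pool.Agent.Helper60.BPM.Disc
import Pool.Agent.Helper60.BPM.Fd
import Pool.Agent.Helper60.BPM.U
import Pool.Agent.Helper60.BPM.S
import Pool.Agent.Helper60.BPM.D0
import Pool.Agent.Helper60.BPM.D1
import Pool.Agent.Helper60.BPM.Grow
import Pool.Agent.Helper60.BPM.Dich
import Pool.Agent.Helper60.BPM.Lev
import Pool.Agent.Helper60.BPM.Ch
import Pool.Agent.Helper60.BPM.AC
import Pool.Agent.Helper60.BPM.Count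
import Pool.Agent.Helper60.BPM.ACc
import Pool.Agent.Helper60.BPM.TiltG
import Pool.Agent.Helper60.BPM.Tilt
import Pool.Agent.Helper60.BPM.TiltAvg
import Pool.Agent.Helper60.BPM.DichP
import Pool.Agent.Helper60.BPM.Meas
import Pool.Agent.Helper60.BPM.HS
import Pool.Agent.Helper60.BPM.Coin
import Pool.Agent.Helper60.BPM.Ov
import Pool.Agent.Helper60.BPM.Sg
import Pool.Agent.Helper60.BPM.Flip
import Pool.Agent.Helper60.BPM.Pairs
import Pool.Agent.Helper60.BPM.DiscP
import Pool.Agent.Helper60.BPM.Link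
import Pool.Agent.Helper60.BPM.PP
import Pool.Agent.Helper60.BPM.Sat
import Pool.Agent.Helper60.BPM.Bv
import Pool.Agent.Helper60.BPM.Cv
import Pool.Agent.Helper60.BPM.Uv
import Pool.Agent.Helper60.BPM.Tv
import Pool.Agent.Helper60.BPM.ASv
import Pool.Agent.Helper60.BPM.Early
import Pool.Agent.Helper60.BPM.GP
import Pool.Agent.Helper60.BPM.Num
import Pool.Agent.Helper60.BPM.Ts
import Pool.Agent.Helper42.BPX.LLN
import Pool.Agent.Helper72.BPA.All

set_option autoImplicit false

/-! Randomly initialised belief propagation fails for all `a > b > 0` with large average degree and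
bounded signal-to-noise ratio (MP_7debfd_pr). -/

namespace Pool.Agent.Helper60.BP

open MeasureTheory Finset Pool.Agent.Helper87.BP Pool.Agent.Helper42.BPX

theorem bp_random_fails : ∀ K0 : ℝ, ∃ D : ℝ, ∀ a b : ℝ, 0 < b → b < a → D ≤ a + b →
    2 * (a + b) < (a - b) ^ 2 → (a - b) ^ 2 ≤ K0 * (a + b) → ∀ ε : ℝ, 0 < ε →
    ∃ c : ℝ, 0 < c ∧ ∃ N : ℕ, ∀ n : ℕ, N ≤ n → ∀ t : ℕ, succProb n t a b ε ≤ 1 - c := by
  have sFd : StFd := st_Fd st_Disc
  have sU : StU := st_U st_Disc
  have sS : StS := st_S st_Disc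
  have sGrow : StGrow := st_Grow (st_D0 sFd) (st_D1 st_Disc) sU
  have sDich : StDich := st_Dich sGrow st_Disc
  have sAC : StAC := st_AC sGrow (st_Lev st_Disc sFd) st_Ch
  have sACc : StACc := st_ACc sAC st_Count
  have sTiltAvg : StTiltAvg := st_TiltAvg st_TiltG st_Tilt
  have sDichP : StDichP := st_DichP st_TiltG st_Tilt
  have sUv : StUv := st_Uv sACc sTiltAvg st_TiltG st_Meas st_Disc
  have sTv : StTv := st_Tv sDich sDichP st_TiltG st_Meas st_Disc
  have sBv : StBv := st_Bv (st_Sat sS) st_Coin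
  have sCv : StCv := st_Cv st_Ov st_Sg st_Coin st_Meas
  have sLink : StLink := st_Link st_Meas
  have sEarly : StEarly := st_Early sLink st_F st_Flip st_Pairs st_Coin st_Ov st_Meas st_PP
  have hA : Pool.Agent.Helper72.BPA.S_partA := Pool.Agent.Helper72.BPA.partA
  exact main st_F st_Par st_DiscP st_GP (st_LLN st_F hA) (st_HS st_Meas) st_Disc sUv sTv sBv sCv
    (st_ASv st_F hA) sEarly st_Num st_Ts sLink

end Pool.Agent.Helper60.BP
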